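import Mathlib
import Pool.Agent.Bergman.Final

/-!
# The two weight problem for the Bergman projection under maximal function bounds

`dA` is the normalised area measure of the unit disc, `box θ ℓ` the Carleson box over the closed arc
`{exp (i t) : θ ≤ t ≤ θ + 2 π ℓ}` of normalised length `ℓ`. Three operators act on functions
`g : ℂ → ℂ`, with values in `[0, ∞]`: `proj g = |P_B g|` (the Bergman projection), `projPos g = P_B⁺ |g|`
(the positive Bergman operator), `maximal g = M g` (the maximal function over the Carleson boxes).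

If `M (σ ·)` is bounded from `L² (σ)` to `L² (w)` and `M (w ·)` from `L² (w)` to `L² (σ)`, then
`P_B (σ ·)` is bounded from `L² (σ)` to `L² (w)` if and only if the two testing conditions over Carleson
boxes hold, if and only if `P_B⁺ (σ ·)` is bounded, if and only if the testing conditions for `P_B⁺`
hold; the norms are controlled by the testing constant and the norms of the maximal operators.
-/

set_option autoImplicit false

open MeasureTheory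
open scoped NNReal ENNReal

namespace Pool.Agent.Results.MP_1be715_an.TwoWeightTesting

/-- The normalised area measure of the unit disc. -/
noncomputable def dA : Measure ℂ :=
  ENNReal.ofReal (Real.pi⁻¹) • volume.restrict (Metric.ball (0 : ℂ) 1)

/-- A weight on the unit disc: positive and locally integrable. -/
def IsWeight (u : ℂ → ℝ) : Prop :=
  (∀ z ∈ Metric.ball (0 : ℂ) 1, 0 < u z) ∧ LocallyIntegrableOn u (Metric.ball (0 : ℂ) 1) volume

/-- The Carleson box `Q_I` over the closed arc `I = {exp (i t) : θ ≤ t ≤ θ + 2 π ℓ}`, `|I| = ℓ`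
(leaving out end points of `I` changes `Q_I` by a null set). -/
def box (θ ℓ : ℝ) : Set ℂ :=
  {z : ℂ | z ≠ 0 ∧ ‖z‖ < 1 ∧ 1 - ‖z‖ ≤ ℓ ∧
    ∃ t ∈ Set.Icc θ (θ + 2 * Real.pi * ℓ), z / ((‖z‖ : ℝ) : ℂ) = Complex.exp ((t : ℂ) * Complex.I)}

/-- `|P_B g (z)|`, `P_B g (z) = ∫ g (ζ) / (1 - z conj ζ) ^ 2 dA (ζ)`. -/
noncomputable def proj (g : ℂ → ℂ) (z : ℂ) : ℝ≥0∞ :=
  ‖∫ ζ, g ζ / (1 - z * (starRingEnd ℂ) ζ) ^ 2 ∂dA‖ₑ

/-- `P_B⁺ |g| (z) = ∫ |g (ζ)| / |1 - z conj ζ| ^ 2 dA (ζ)`. -/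
noncomputable def projPos (g : ℂ → ℂ) (z : ℂ) : ℝ≥0∞ :=
  ∫⁻ ζ, ENNReal.ofReal (1 / ‖1 - z * (starRingEnd ℂ) ζ‖ ^ 2) * ‖g ζ‖ₑ ∂dA

/-- `M g (x)`, the supremum of the means of `|g|` over the Carleson boxes that contain `x`. -/
noncomputable def maximal (g : ℂ → ℂ) (x : ℂ) : ℝ≥0∞ :=
  ⨆ (θ : ℝ) (ℓ : ℝ) (_ : 0 < ℓ ∧ ℓ ≤ 1 ∧ x ∈ box θ ℓ), (∫⁻ ζ in box θ ℓ, ‖g ζ‖ₑ ∂dA) / dA (box θ ℓ)

/-- The square of the norm of `g` in `L² (u dA)`. -/
noncomputable def normSq (u : ℂ → ℝ) (g : ℂ → ℝ≥0∞) : ℝ≥0∞ :=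
  ∫⁻ z, ENNReal.ofReal (u z) * g z ^ 2 ∂dA

/-- `T (u ·)` maps `L² (u)` to `L² (v)` with square of the norm at most `C`. -/
def Bounded (T : (ℂ → ℂ) → ℂ → ℝ≥0∞) (u v : ℂ → ℝ) (C : ℝ≥0∞) : Prop :=
  ∀ f : ℂ → ℂ, AEStronglyMeasurable f dA → normSq u (fun z => ‖f z‖ₑ) < ∞ →
    normSq v (T fun ζ => (u ζ : ℂ) * f ζ) ≤ C * normSq u (fun z => ‖f z‖ₑ)

/-- The testing condition for `T (u ·)` and the measures `u`, `v` over all Carleson boxes `Q`:
`‖T (u 1_Q)‖² ≤ C u (Q)`, the norm in `L² (v)`. -/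
def Testing (T : (ℂ → ℂ) → ℂ → ℝ≥0∞) (u v : ℂ → ℝ) (C : ℝ≥0∞) : Prop :=
  ∀ θ ℓ : ℝ, 0 < ℓ → ℓ ≤ 1 →
    normSq v (T ((box θ ℓ).indicator fun ζ => (u ζ : ℂ))) ≤
      C * ∫⁻ ζ in box θ ℓ, ENNReal.ofReal (u ζ) ∂dA

open Pool.Agent.Bergman in
/-- `|P_B g| ≤ P_B⁺ |g|` -/
private theorem proj_le (g : ℂ → ℂ) (z : ℂ) : proj g z ≤ projPos g z := enorm_BP_le g z

private theorem normSq_mono {u : ℂ → ℝ} {g h : ℂ → ℝ≥0∞} (H : ∀ z, g z ≤ h z) :
    normSq u g ≤ normSq u h :=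
  lintegral_mono fun z => mul_le_mul' le_rfl (pow_le_pow_left' (H z) 2)

private theorem bounded_proj {u v : ℂ → ℝ} {C : ℝ≥0∞} (h : Bounded projPos u v C) :
    Bounded proj u v C := fun f hf hN => (normSq_mono fun z => proj_le _ z).trans (h f hf hN)

private theorem testing_proj {u v : ℂ → ℝ} {C : ℝ≥0∞} (h : Testing projPos u v C) :
    Testing proj u v C := fun θ ℓ h0 h1 => (normSq_mono fun z => proj_le _ z).trans (h θ ℓ h0 h1)

section
open Pool.Agent.Bergman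

variable {u u' v v' : ℂ → ℝ}

private theorem mb (hu : WtR0 u u') (hv : WtR0 v v') {C : ℝ≥0} (h : Bounded maximal u v C) {δ : ℝ≥0}
    (hδ : 0 < δ) : MB (fun z => ENNReal.ofReal (u' z)) (fun z => ENNReal.ofReal (v' z))
      ((C + δ : ℝ≥0) : ℝ≥0∞) := by
  refine MB_of_complex hu hv fun f hf => ?_
  by_cases hN : normSq u (fun z => ‖f z‖ₑ) = ∞
  · have hN' : ∫⁻ ζ, ENNReal.ofReal (u ζ) * ‖f ζ‖ₑ ^ 2 ∂mu = ∞ := hN
    rw [hN', ENNReal.mul_top (by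
      rw [Ne, ENNReal.coe_eq_zero]
      exact (add_pos_of_nonneg_of_pos zero_le hδ).ne')]
    exact le_top
  · refine (h f hf (lt_top_iff_ne_top.2 hN)).trans (mul_le_mul' ?_ le_rfl)
    exact_mod_cast le_self_add

/-- the complex form of the bound for the positive operator -/
private theorem pos_of_PB (hu : WtR0 u u') (hv : WtR0 v v') {C : ℝ≥0∞}
    (hP : PB (fun z => ENNReal.ofReal (u' z)) (fun z => ENNReal.ofReal (v' z)) C)
    (f : ℂ → ℂ) (hf : AEStronglyMeasurable f dA) :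
    normSq v (projPos fun ζ => (u ζ : ℂ) * f ζ) ≤ C * normSq u (fun z => ‖f z‖ₑ) := by
  have hfm : AEMeasurable (fun ζ => ‖f ζ‖) mu := hf.norm.aemeasurable
  let F : ℂ → ℝ≥0∞ := fun ζ => ENNReal.ofReal (hfm.mk (fun ζ => ‖f ζ‖) ζ)
  have hF : Measurable F := hfm.measurable_mk.ennreal_ofReal
  have hF' : ∀ z, F z ≠ ∞ := fun z => ENNReal.ofReal_ne_top
  have hFf : ∀ᵐ ζ ∂mu, F ζ = ‖f ζ‖ₑ := by
    filter_upwards [hfm.ae_eq_mk] with ζ hζ
    simp only [F]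
    rw [← hζ, ofReal_norm]
  have h1 := hP F hF hF'
  have e1 : ∫⁻ z, ENNReal.ofReal (v' z) * (Pp (fun ζ => ENNReal.ofReal (u' ζ) * F ζ) z) ^ 2 ∂mu =
      normSq v (projPos fun ζ => (u ζ : ℂ) * f ζ) := by
    refine lintegral_congr_ae ?_
    filter_upwards [hv.ae] with z hz
    have h2 : Pp (fun ζ => ENNReal.ofReal (u' ζ) * F ζ) z = projPos (fun ζ => (u ζ : ℂ) * f ζ) z := by
      refine lintegral_congr_ae ?_
      filter_upwards [hu.ae, hu.pos, hFf] with ζ h1 h2 h3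
      change ENNReal.ofReal (1 / dd z ζ ^ 2) * (ENNReal.ofReal (u' ζ) * F ζ) =
        ENNReal.ofReal (1 / dd z ζ ^ 2) * ‖(u ζ : ℂ) * f ζ‖ₑ
      rw [h3, enorm_mul, ← h1]
      congr 2
      rw [← ofReal_norm, Complex.norm_real, Real.norm_eq_abs, abs_of_pos h2]
    rw [h2, hz]
  have e2 : ∫⁻ ζ, ENNReal.ofReal (u' ζ) * F ζ ^ 2 ∂mu = normSq u (fun z => ‖f z‖ₑ) := by
    refine lintegral_congr_ae ?_
    filter_upwards [hu.ae, hFf] with ζ h1 h2
    rw [h1, h2]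
  rw [e1, e2] at h1
  exact h1

private theorem PB_of_pos (hu : WtR0 u u') (hv : WtR0 v v') {C : ℝ≥0}
    (h : Bounded projPos u v C) :
    PB (fun z => ENNReal.ofReal (u' z)) (fun z => ENNReal.ofReal (v' z)) ((C + 1 : ℝ≥0) : ℝ≥0∞) := by
  intro F hF hF'
  have hm : AEStronglyMeasurable (fun ζ => (((F ζ).toReal : ℝ) : ℂ)) dA :=
    (Complex.measurable_ofReal.comp hF.ennreal_toReal).aestronglyMeasurable
  have e2 : normSq u (fun ζ => ‖(((F ζ).toReal : ℝ) : ℂ)‖ₑ) =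
      ∫⁻ ζ, ENNReal.ofReal (u' ζ) * F ζ ^ 2 ∂mu := by
    refine lintegral_congr_ae ?_
    filter_upwards [hu.ae] with z hz
    rw [enorm_toReal_ofReal (hF' z), hz]
  by_cases hN : ∫⁻ ζ, ENNReal.ofReal (u' ζ) * F ζ ^ 2 ∂mu = ∞
  · rw [hN, ENNReal.mul_top (by rw [Ne, ENNReal.coe_eq_zero]; positivity)]
    exact le_top
  have h1 := h _ hm (by rw [e2]; exact lt_top_iff_ne_top.2 hN)
  rw [e2] at h1
  have e1 : normSq v (projPos fun ζ => (u ζ : ℂ) * (((F ζ).toReal : ℝ) : ℂ)) =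
      ∫⁻ z, ENNReal.ofReal (v' z) * (Pp (fun ζ => ENNReal.ofReal (u' ζ) * F ζ) z) ^ 2 ∂mu := by
    refine lintegral_congr_ae ?_
    filter_upwards [hv.ae] with z hz
    have h2 : projPos (fun ζ => (u ζ : ℂ) * (((F ζ).toReal : ℝ) : ℂ)) z =
        Pp (fun ζ => ENNReal.ofReal (u' ζ) * F ζ) z := by
      refine lintegral_congr_ae ?_
      filter_upwards [hu.ae, hu.pos] with ζ h1 h2
      change ENNReal.ofReal (1 / dd z ζ ^ 2) * ‖(u ζ : ℂ) * (((F ζ).toReal : ℝ) : ℂ)‖ₑ =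
        ENNReal.ofReal (1 / dd z ζ ^ 2) * (ENNReal.ofReal (u' ζ) * F ζ)
      rw [enorm_mul, enorm_toReal_ofReal (hF' ζ), ← h1]
      congr 2
      rw [← ofReal_norm, Complex.norm_real, Real.norm_eq_abs, abs_of_pos h2]
    rw [h2, hz]
  rw [e1] at h1
  refine h1.trans (mul_le_mul' ?_ le_rfl)
  exact_mod_cast le_self_add

private theorem testing_of_PB (hu : WtR0 u u') (hv : WtR0 v v') {C : ℝ≥0∞}
    (hP : PB (fun z => ENNReal.ofReal (u' z)) (fun z => ENNReal.ofReal (v' z)) C) :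
    Testing projPos u v C := by
  intro θ ℓ _ _
  have hbm := measurableSet_box θ ℓ
  have h1 := pos_of_PB hu hv hP ((box θ ℓ).indicator fun _ => 1)
    ((measurable_const.indicator hbm).aestronglyMeasurable)
  have e1 : (fun ζ => (u ζ : ℂ) * (box θ ℓ).indicator (fun _ => 1) ζ) =
      (box θ ℓ).indicator (fun ζ => (u ζ : ℂ)) := by
    funext ζ
    by_cases hζ : ζ ∈ box θ ℓ
    · rw [Set.indicator_of_mem hζ, Set.indicator_of_mem hζ, mul_one]
    · rw [Set.indicator_of_notMem hζ, Set.indicator_of_notMem hζ, mul_zero]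
  have e2 : normSq u (fun z => ‖(box θ ℓ).indicator (fun _ => (1 : ℂ)) z‖ₑ) =
      ∫⁻ ζ in box θ ℓ, ENNReal.ofReal (u ζ) ∂dA := by
    rw [← lintegral_indicator (show MeasurableSet (box θ ℓ) from hbm)]
    refine lintegral_congr fun ζ => ?_
    by_cases hζ : ζ ∈ box θ ℓ
    · simp only [Set.indicator_of_mem hζ]; simp
    · simp only [Set.indicator_of_notMem hζ]; simp
  rw [e1, e2] at h1
  exact h1

private theorem ne_zero (hu : WtR0 u u') : ∫⁻ z, ENNReal.ofReal (u' z) ∂mu ≠ 0 := by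
  have hmu0 : mu ≠ 0 := by
    intro h
    have h1 : mu (Metric.ball (0 : ℂ) 1) = 0 := by rw [h]; simp
    unfold mu at h1
    rw [Measure.smul_apply, smul_eq_mul, mul_eq_zero, Measure.restrict_apply
      Metric.isOpen_ball.measurableSet, Set.inter_self] at h1
    rcases h1 with h1 | h1
    · rw [ENNReal.ofReal_eq_zero] at h1
      have := Real.pi_pos
      have : 0 < Real.pi⁻¹ := by positivity
      linarith
    · exact (Metric.measure_ball_pos volume (0 : ℂ) one_pos).ne' h1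
  intro h
  rw [lintegral_eq_zero_iff hu.meas.ennreal_ofReal] at h
  have : ∀ᵐ z ∂mu, False := by
    filter_upwards [h, hu.ae, hu.pos] with z h1 h2 h3
    simp only [Pi.zero_apply, ENNReal.ofReal_eq_zero] at h1
    linarith
  rw [Filter.eventually_false_iff_eq_bot, ae_eq_bot] at this
  exact hmu0 this

/-- the weight is integrable on the disc -/
private theorem wtR (hu : WtR0 u u') (hv : WtR0 v v') {C : ℝ≥0} (h : Bounded maximal u v C) :
    WtR u u' :=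
  ⟨hu.meas, hu.ae, hu.pos, int_ne_top_of_MB hu.meas.ennreal_ofReal
    (fun _ => ENNReal.ofReal_ne_top) hv.meas.ennreal_ofReal (ne_zero hv) ENNReal.coe_ne_top
    (mb hu hv h one_pos)⟩

private theorem integrable_of (hu : WtR u u') (f : ℂ → ℂ) (hf : AEStronglyMeasurable f dA)
    (hN : normSq u (fun z => ‖f z‖ₑ) < ∞) : Integrable (fun ζ => (u ζ : ℂ) * f ζ) dA := by
  have hfm : AEMeasurable (fun ζ => ‖f ζ‖) mu := hf.norm.aemeasurable
  let F : ℂ → ℝ≥0∞ := fun ζ => ENNReal.ofReal (hfm.mk (fun ζ => ‖f ζ‖) ζ)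
  have hF : Measurable F := hfm.measurable_mk.ennreal_ofReal
  have hF' : ∀ z, F z ≠ ∞ := fun z => ENNReal.ofReal_ne_top
  have hFf : ∀ᵐ ζ ∂mu, F ζ = ‖f ζ‖ₑ := by
    filter_upwards [hfm.ae_eq_mk] with ζ hζ
    simp only [F]
    rw [← hζ, ofReal_norm]
  have e2 : ∫⁻ ζ, ENNReal.ofReal (u' ζ) * F ζ ^ 2 ∂mu = normSq u (fun z => ‖f z‖ₑ) := by
    refine lintegral_congr_ae ?_
    filter_upwards [hu.ae, hFf] with ζ h1 h2
    rw [h1, h2]
  have h1 := integrable_mul hu hF hF' (by rw [e2]; exact hN.ne)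
  have hum : AEStronglyMeasurable (fun ζ => (u ζ : ℂ)) dA :=
    ⟨fun ζ => (u' ζ : ℂ), (Complex.measurable_ofReal.comp hu.meas).stronglyMeasurable, by
      filter_upwards [hu.ae] with ζ hζ
      rw [hζ]⟩
  refine h1.mono' (hum.mul hf) ?_
  filter_upwards [hu.ae, hu.pos, hFf] with ζ h2 h3 h4
  rw [norm_mul, Complex.norm_real, Real.norm_eq_abs, abs_of_pos h3, h4, h2, toReal_enorm]

/-- the constant -/
private theorem const_le (C A B δ : ℝ≥0) :
    (32 ^ 2 * (64 * (200 ^ 2 * (3 * (C : ℝ≥0∞) + (3 * (4 * (500 ^ 2 * ((B + δ : ℝ≥0) : ℝ≥0∞))) +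
      3 * (4 * (500 ^ 2 * ((A + δ : ℝ≥0) : ℝ≥0∞)))))))) ≤
      10 ^ 10 * C + 10 ^ 16 * (A + B) + 10 ^ 17 * (δ : ℝ≥0∞) := by
  have h : (32 ^ 2 * (64 * (200 ^ 2 * (3 * C + (3 * (4 * (500 ^ 2 * (B + δ))) +
      3 * (4 * (500 ^ 2 * (A + δ)))))))) ≤
      10 ^ 10 * C + 10 ^ 16 * (A + B) + 10 ^ 17 * δ := by
    rw [← NNReal.coe_le_coe]
    push_cast
    have h1 := C.coe_nonneg
    have h2 := A.coe_nonneg
    have h3 := B.coe_nonneg
    have h4 := δ.coe_nonneg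
    linarith
  exact_mod_cast h

end

theorem result (w σ : ℂ → ℝ) (hw : IsWeight w) (hσ : IsWeight σ) (A B : ℝ≥0)
    (hA : Bounded maximal σ w A) (hB : Bounded maximal w σ B) :
    (∀ f : ℂ → ℂ, AEStronglyMeasurable f dA → normSq σ (fun z => ‖f z‖ₑ) < ∞ →
      Integrable (fun ζ => (σ ζ : ℂ) * f ζ) dA) ∧
    [∃ C : ℝ≥0, Bounded proj σ w C,
      ∃ C : ℝ≥0, Testing proj σ w C ∧ Testing proj w σ C,
      ∃ C : ℝ≥0, Bounded projPos σ w C,
      ∃ C : ℝ≥0, Testing projPos σ w C ∧ Testing projPos w σ C].TFAE ∧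
    ∀ C : ℝ≥0, Testing proj σ w C → Testing proj w σ C →
      Bounded proj σ w (10 ^ 10 * C + 10 ^ 16 * (A + B)) ∧
        Bounded projPos σ w (10 ^ 10 * C + 10 ^ 16 * (A + B)) := by
  obtain ⟨σ', hσ0⟩ := Bergman.exists_WtR0 hσ.1 hσ.2
  obtain ⟨w', hw0⟩ := Bergman.exists_WtR0 hw.1 hw.2
  have hσ1 := wtR hσ0 hw0 hA
  have hw1 := wtR hw0 hσ0 hB
  have quant : ∀ C : ℝ≥0, Testing proj σ w C → Testing proj w σ C →
      Bounded projPos σ w (10 ^ 10 * C + 10 ^ 16 * (A + B)) := by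
    intro C h1 h2 f hf hN
    refine ENNReal.le_of_forall_pos_le_add fun ε hε _ => ?_
    obtain ⟨n, hn⟩ : ∃ n : ℝ≥0, (n : ℝ≥0∞) = normSq σ (fun z => ‖f z‖ₑ) :=
      ⟨_, ENNReal.coe_toNNReal hN.ne⟩
    set δ : ℝ≥0 := ε / (10 ^ 17 * n + 1) with hδ'
    have hδ : 0 < δ := by positivity
    have hPT1 := Bergman.PT_of_test hσ1 hw1 (mb hσ0 hw0 hA hδ) (mb hw0 hσ0 hB hδ) (C₀ := C)
      (fun θ ℓ a b => h1 θ ℓ a b)
    have hPT2 := Bergman.PT_of_test hw1 hσ1 (mb hw0 hσ0 hB hδ) (mb hσ0 hw0 hA hδ) (C₀ := C)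
      (fun θ ℓ a b => h2 θ ℓ a b)
    rw [add_comm (3 * (4 * (500 ^ 2 * ((A + δ : ℝ≥0) : ℝ≥0∞))))] at hPT2
    have hPB := Bergman.PB_of_PT hσ1.wt hw1.wt hPT2 hPT1
    refine (pos_of_PB hσ0 hw0 hPB f hf).trans ?_
    refine (mul_le_mul' (const_le C A B δ) le_rfl).trans ?_
    rw [add_mul]
    refine add_le_add le_rfl ?_
    rw [← hn]
    have h3 : 10 ^ 17 * δ * n ≤ ε := by
      rw [hδ', ← NNReal.coe_le_coe]
      push_cast
      have h4 : (0 : ℝ) < 10 ^ 17 * n + 1 := by positivity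
      rw [mul_div_assoc', div_mul_eq_mul_div, div_le_iff₀ h4]
      have h5 := ε.coe_nonneg
      linarith
    exact_mod_cast h3
  refine ⟨integrable_of hσ1, ?_, fun C h1 h2 => ⟨bounded_proj (quant C h1 h2), quant C h1 h2⟩⟩
  tfae_have 1 → 3 := by
    rintro ⟨C, hC⟩
    have h1 := Bergman.PB_of_BPB hσ1 hw1 (mb hσ0 hw0 hA one_pos) (mb hw0 hσ0 hB one_pos) (C := C)
      (fun f hf _ hN => hC f hf hN)
    refine ⟨3 * C + (3 * (4 * (500 ^ 2 * (B + 1))) + 3 * (4 * (500 ^ 2 * (A + 1)))) + 1,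
      fun f hf _ => ?_⟩
    have h2 := pos_of_PB hσ0 hw0 h1 f hf
    push_cast at h2 ⊢
    exact h2
  tfae_have 3 → 4 := by
    rintro ⟨C, hC⟩
    have h1 := PB_of_pos hσ0 hw0 hC
    exact ⟨C + 1, testing_of_PB hσ0 hw0 h1,
      testing_of_PB hw0 hσ0 (Bergman.PB.symm hσ1.wt hw1.wt h1)⟩
  tfae_have 4 → 2 := fun ⟨C, h1, h2⟩ => ⟨C, testing_proj h1, testing_proj h2⟩
  tfae_have 2 → 3 := by
    rintro ⟨C, h1, h2⟩
    refine ⟨10 ^ 10 * C + 10 ^ 16 * (A + B), ?_⟩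
    push_cast
    exact quant C h1 h2
  tfae_have 3 → 1 := fun ⟨C, hC⟩ => ⟨C, bounded_proj hC⟩
  tfae_finish

end Pool.Agent.Results.MP_1be715_an.TwoWeightTesting
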